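import Pool.Agent.H28.RC.Basic
import Pool.Agent.H3.HK.GA

/-!
# GA: the Fourier transform of `gj J (A x)`
-/

set_option autoImplicit false

open MeasureTheory Set Filter Complex

namespace Pool.Agent.H42.RC

open Pool.Agent.H28.RC Pool.Agent.H25.HK Pool.Agent.H25

/-- the one-dimensional factor -/
noncomputable def fac (b : Prop) [Decidable b] (v : ℝ) : ℝ :=
  (if b then v else 1) * Real.exp (-Real.pi * v ^ 2)

lemma gj_eq {ι : Type} [Fintype ι] [DecidableEq ι] (J : Finset ι) (u : ι → ℝ) :
    gj J u = ∏ i, fac (i ∈ J) (u i) := by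
  unfold gj fac
  rw [Finset.prod_mul_distrib, ← Real.exp_sum, Finset.mul_sum]
  congr 1
  rw [Finset.prod_ite_mem, Finset.univ_inter]

lemma fac_int (hF1 : T_F1) (b : Prop) [Decidable b] (w : ℝ) :
    Integrable (fun v : ℝ => cexp (-(2 * Real.pi * (w * v) : ℝ) * I) * ((fac b v : ℝ) : ℂ)) ∧
      ∫ v : ℝ, cexp (-(2 * Real.pi * (w * v) : ℝ) * I) * ((fac b v : ℝ) : ℂ) =
        (if b then -I else 1) * ((fac b w : ℝ) : ℂ) := by
  have hreal : Integrable (fun v : ℝ => fac b v) := by
    unfold fac
    by_cases hb : b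
    · simpa only [hb, if_true] using (hF1 w).1
    · simpa only [hb, if_false, one_mul] using integrable_exp_neg_mul_sq Real.pi_pos
  refine ⟨?_, ?_⟩
  · have h1 : Integrable (fun v : ℝ => ((fac b v : ℝ) : ℂ)) := hreal.ofReal
    refine h1.bdd_mul (c := 1) (Continuous.aestronglyMeasurable (by fun_prop))
      (Filter.Eventually.of_forall fun v => ?_)
    rw [← Complex.ofReal_neg, Complex.norm_exp_ofReal_mul_I]
  · by_cases hb : b
    · simp only [fac, hb, if_true]
      exact (hF1 w).2
    · simp only [fac, hb, if_false, one_mul]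
      have hpi : (0 : ℝ) < ((Real.pi : ℝ) : ℂ).re := by
        simpa using Real.pi_pos
      have h := fourierIntegral_gaussian hpi (-(2 * Real.pi * w : ℝ) : ℂ)
      have hpi0 : (Real.pi : ℂ) ≠ 0 := Complex.ofReal_ne_zero.2 Real.pi_ne_zero
      rw [div_self hpi0, Complex.one_cpow, one_mul] at h
      have e1 : (fun v : ℝ => cexp (-(2 * Real.pi * (w * v) : ℝ) * I) *
          ((Real.exp (-Real.pi * v ^ 2) : ℝ) : ℂ)) =
          fun v : ℝ => cexp (I * (-(2 * Real.pi * w : ℝ) : ℂ) * v) *
            cexp (-(Real.pi : ℂ) * (v : ℂ) ^ 2) := by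
        funext v
        rw [Complex.ofReal_exp]
        congr 2
        · push_cast
          ring
        · push_cast
          ring
      rw [e1, h, Complex.ofReal_exp]
      congr 1
      push_cast
      field_simp
      ring

theorem pf_GA (hF1 : T_F1) : T_GAc := by
  intro ι _ _ A J hA k
  have hAu : IsUnit A.det := hA.isUnit
  set w : ι → ℝ := (A⁻¹).transpose.mulVec k with hw
  have hkx : ∀ x, ∑ i, k i * x i = ∑ i, w i * (A.mulVec x) i := by
    intro x
    change k ⬝ᵥ x = w ⬝ᵥ A.mulVec x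
    rw [hw, Matrix.mulVec_transpose, ← Matrix.dotProduct_mulVec, Matrix.mulVec_mulVec,
      Matrix.nonsing_inv_mul _ hAu, Matrix.one_mulVec]
  set F : ι → ℝ → ℂ := fun i v => cexp (-(2 * Real.pi * (w i * v) : ℝ) * I) *
    ((fac (i ∈ J) v : ℝ) : ℂ) with hF
  have hint : Integrable (fun v : ι → ℝ => ∏ i, F i (v i)) :=
    Integrable.fintype_prod fun i => (fac_int hF1 (i ∈ J) (w i)).1
  have hval : ∫ v : ι → ℝ, ∏ i, F i (v i) = ∏ i, ∫ x, F i x :=
    integral_fintype_prod_volume_eq_prod F
  have hfx : ∀ x, cexp (-(2 * Real.pi * (∑ i, k i * x i) : ℝ) * I) *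
      (gj J (A.mulVec x) : ℂ) = (fun v : ι → ℝ => ∏ i, F i (v i)) (A.mulVec x) := by
    intro x
    rw [hkx, gj_eq]
    simp only [hF]
    rw [Finset.prod_mul_distrib, ← Complex.exp_sum]
    congr 1
    · congr 1
      push_cast
      rw [Finset.mul_sum, ← Finset.sum_neg_distrib, Finset.sum_mul]
    · push_cast
      rfl
  obtain ⟨h3, h4⟩ := Pool.Agent.H3.HK.subst A hA _ hint
  refine ⟨?_, ?_⟩
  · have h5 := h3.norm
    have h6 : Integrable (fun x => ‖gj J (A.mulVec x)‖) := by
      refine h5.congr (Filter.Eventually.of_forall fun x => ?_)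
      change ‖(fun v : ι → ℝ => ∏ i, F i (v i)) (A.mulVec x)‖ = _
      rw [← hfx, norm_mul, ← Complex.ofReal_neg, Complex.norm_exp_ofReal_mul_I, one_mul,
        Complex.norm_real]
    refine (integrable_norm_iff ?_).1 h6
    refine Continuous.aestronglyMeasurable ?_
    have hc : Continuous fun x : ι → ℝ => A.mulVec x := by fun_prop
    have hg : Continuous fun u : ι → ℝ => gj J u := by
      unfold gj
      fun_prop
    exact hg.comp hc
  · rw [integral_congr_ae (Filter.Eventually.of_forall hfx), h4, hval, gj_eq]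
    simp only [hF]
    rw [Finset.prod_congr rfl fun i _ => (fac_int hF1 (i ∈ J) (w i)).2, Finset.prod_mul_distrib,
      Finset.prod_ite_mem, Finset.univ_inter, Finset.prod_const]
    push_cast
    ring

end Pool.Agent.H42.RC
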